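import Mathlib

set_option autoImplicit false

namespace Pool.Agent.H304R3.Corner

open Combinatorics

/-- Van der Waerden's theorem with a bound on the step, from Hales-Jewett. -/
theorem vdw (L R : ℕ) : ∃ W : ℕ, ∀ c : ℕ → Fin R, ∃ x s : ℕ, 1 ≤ s ∧ s ≤ W ∧ x + L * s ≤ W ∧
    ∀ k ≤ L, c (x + k * s) = c x := by
  classical
  obtain ⟨ι, hι, H⟩ := Line.exists_mono_in_high_dimension (Fin (L + 1)) (Fin R)
  refine ⟨Fintype.card ι * L + Fintype.card ι, fun c => ?_⟩
  obtain ⟨l, c₀, hl⟩ := H (fun v => c (∑ i, (v i : ℕ)))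
  set s : ℕ := (Finset.univ.filter (fun i => l.idxFun i = none)).card with hs
  have key : ∀ k : Fin (L + 1), (∑ i, ((l k i : Fin (L + 1)) : ℕ)) =
      (∑ i, ((l 0 i : Fin (L + 1)) : ℕ)) + (k : ℕ) * s := by
    intro k
    have h1 : ∀ i, ((l k i : Fin (L + 1)) : ℕ) =
        ((l 0 i : Fin (L + 1)) : ℕ) + (if l.idxFun i = none then (k : ℕ) else 0) := by
      intro i
      rw [Line.coe_apply, Line.coe_apply]
      cases h : l.idxFun i with
      | none => simp
      | some a => simp
    rw [Finset.sum_congr rfl (fun i _ => h1 i), Finset.sum_add_distrib, ← Finset.sum_filter,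
      Finset.sum_const, smul_eq_mul, hs, mul_comm]
  have hs1 : 1 ≤ s := by
    obtain ⟨i, hi⟩ := l.proper
    rw [hs]
    exact Finset.card_pos.mpr ⟨i, by simp [hi]⟩
  have hs2 : s ≤ Fintype.card ι := by
    rw [hs]
    exact Finset.card_le_univ _
  have hb : (∑ i, ((l (Fin.last L) i : Fin (L + 1)) : ℕ)) ≤ Fintype.card ι * L := by
    calc (∑ i, ((l (Fin.last L) i : Fin (L + 1)) : ℕ)) ≤ ∑ _i : ι, L :=
          Finset.sum_le_sum (fun i _ => Nat.lt_succ_iff.mp (Fin.is_lt _))
      _ = Fintype.card ι * L := by simp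
  have hlast := key (Fin.last L)
  rw [Fin.val_last] at hlast
  refine ⟨∑ i, ((l 0 i : Fin (L + 1)) : ℕ), s, hs1, by omega, by omega, fun k hk => ?_⟩
  have e1 := hl ⟨k, by omega⟩
  have e2 := hl 0
  simp only at e1 e2
  rw [key ⟨k, by omega⟩] at e1
  rw [e2]
  exact e1

/-- A Graham-type statement: for every number of colours there is `P` such that every colouring
of the quarter lattice has a monochromatic `(i, j), (i + a, j), (i, j + b)` with `a b = P`. -/
theorem corner (R : ℕ) : ∀ r : ℕ, ∃ P N : ℕ, 1 ≤ P ∧ ∀ (c : ℕ → ℕ → Fin R) (S : Finset (Fin R)),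
    S.card ≤ r → (∀ i ≤ N, ∀ j ≤ N, c i j ∈ S) →
    ∃ i j a b : ℕ, 1 ≤ a ∧ 1 ≤ b ∧ a * b = P ∧ i + a ≤ N ∧ j + b ≤ N ∧
      c (i + a) j = c i j ∧ c i (j + b) = c i j := by
  intro r
  induction r with
  | zero =>
    refine ⟨1, 0, le_refl _, fun c S hS hc => ?_⟩
    have h := hc 0 le_rfl 0 le_rfl
    rw [Finset.card_eq_zero.mp (Nat.le_zero.mp hS)] at h
    exact absurd h (Finset.notMem_empty _)
  | succ r ih =>
    obtain ⟨P', N', hP', H⟩ := ih
    -- constants
    set M : ℕ := N' + P' + 1 with hM
    set K : ℕ := M.factorial with hK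
    have hKpos : 0 < K := Nat.factorial_pos _
    obtain ⟨w, hw⟩ : P' ∣ K := Nat.dvd_factorial (by omega) (by omega)
    have hwpos : 0 < w := by
      rcases Nat.eq_zero_or_pos w with h | h
      · rw [h] at hw; omega
      · exact h
    set L : ℕ := N' * w + K with hL
    obtain ⟨W, hW⟩ := vdw L R
    set F : ℕ := W.factorial with hF
    have hFpos : 0 < F := Nat.factorial_pos _
    refine ⟨K * F, W + (N' + 1) * F + 1, Nat.mul_pos hKpos hFpos, fun c S hS hc => ?_⟩
    obtain ⟨x, s, hs1, hsW, hxL, hmono⟩ := hW (fun i => c i 0)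
    obtain ⟨v, hv⟩ : s ∣ F := Nat.dvd_factorial (by omega) hsW
    have hvpos : 0 < v := by
      rcases Nat.eq_zero_or_pos v with h | h
      · rw [h] at hv; omega
      · exact h
    have hvF : v ≤ F := by rw [hv]; exact Nat.le_mul_of_pos_left v (by omega)
    -- bounds used repeatedly
    have hcol : ∀ k ≤ L, x + k * s ≤ W := by
      intro k hk
      have : k * s ≤ L * s := Nat.mul_le_mul_right s hk
      omega
    have hrow : ∀ q ≤ N', (q + 1) * v ≤ (N' + 1) * F := by
      intro q hq
      exact Nat.mul_le_mul (by omega) hvF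
    by_cases hcase : ∃ k ≤ N', ∃ q ≤ N', c (x + (k * w) * s) ((q + 1) * v) = c x 0
    · obtain ⟨k, hk, q, hq, hcq⟩ := hcase
      obtain ⟨m, hm⟩ : (q + 1) ∣ K := Nat.dvd_factorial (by omega) (by omega)
      have hmpos : 0 < m := by
        rcases Nat.eq_zero_or_pos m with h | h
        · rw [h] at hm; omega
        · exact h
      have hmK : m ≤ K := by rw [hm]; exact Nat.le_mul_of_pos_left m (by omega)
      have hkw : k * w ≤ N' * w := Nat.mul_le_mul_right w hk
      have e1 : x + (k * w) * s + m * s = x + (k * w + m) * s := by ring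
      refine ⟨x + (k * w) * s, 0, m * s, (q + 1) * v, Nat.mul_pos hmpos (by omega),
        Nat.mul_pos (by omega) hvpos, ?_, ?_, ?_, ?_, ?_⟩
      · rw [hm, hv]; ring
      · rw [e1]
        have := hcol (k * w + m) (by omega)
        omega
      · have := hrow q hq
        omega
      · rw [e1, hmono (k * w + m) (by omega), hmono (k * w) (by omega)]
      · rw [Nat.zero_add, hcq, hmono (k * w) (by omega)]
    · push Not at hcase
      obtain ⟨i, j, a, b, ha, hb, hab, hiN, hjN, h1, h2⟩ :=
        H (fun i j => c (x + (min i N' * w) * s) ((min j N' + 1) * v)) (S.erase (c x 0))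
          (by
            have hx0 : c x 0 ∈ S := hc x (by omega) 0 (by omega)
            rw [Finset.card_erase_of_mem hx0]
            omega)
          (by
            intro i hi j hj
            rw [min_eq_left hi, min_eq_left hj, Finset.mem_erase]
            refine ⟨hcase i hi j hj, ?_⟩
            have hiw : i * w ≤ N' * w := Nat.mul_le_mul_right w hi
            have h1 := hcol (i * w) (by omega)
            have h2 := hrow j hj
            exact hc _ (by omega) _ (by omega))
      rw [min_eq_left hiN, min_eq_left (show i ≤ N' by omega), min_eq_left (show j ≤ N' by omega)]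
        at h1
      rw [min_eq_left hjN, min_eq_left (show i ≤ N' by omega), min_eq_left (show j ≤ N' by omega)]
        at h2
      have hiw : (i + a) * w ≤ N' * w := Nat.mul_le_mul_right w hiN
      have e1 : x + (i * w) * s + a * w * s = x + ((i + a) * w) * s := by ring
      have e2 : (j + 1) * v + b * v = (j + b + 1) * v := by ring
      refine ⟨x + (i * w) * s, (j + 1) * v, a * w * s, b * v,
        Nat.mul_pos (Nat.mul_pos (by omega) hwpos) (by omega), Nat.mul_pos (by omega) hvpos,
        ?_, ?_, ?_, ?_, ?_⟩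
      · rw [hw, hv, ← hab]; ring
      · rw [e1]
        have := hcol ((i + a) * w) (by omega)
        omega
      · rw [e2]
        have := hrow (j + b) hjN
        omega
      · rw [e1, h1]
      · rw [e2, h2]

end Pool.Agent.H304R3.Corner
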