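import Mathlib

set_option autoImplicit false

namespace Pool.Agent.H304R3.MO

open Filter Topology Finset

/-- summation by parts -/
theorem abel (f : ℕ → ℂ) (a : ℕ → ℂ) (N : ℕ) :
    ∑ n ∈ Icc 1 N, f n * a n =
      (∑ k ∈ Icc 1 N, f k) * a (N + 1) +
        ∑ n ∈ Icc 1 N, (∑ k ∈ Icc 1 n, f k) * (a n - a (n + 1)) := by
  induction N with
  | zero => simp
  | succ N ih =>
    have hS : ∑ k ∈ Icc 1 (N + 1), f k = ∑ k ∈ Icc 1 N, f k + f (N + 1) :=
      Finset.sum_Icc_succ_top (by omega) _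
    rw [Finset.sum_Icc_succ_top (by omega : 1 ≤ N + 1) (fun n => f n * a n), ih,
      Finset.sum_Icc_succ_top (by omega : 1 ≤ N + 1)
        (fun n => (∑ k ∈ Icc 1 n, f k) * (a n - a (n + 1))), hS]
    ring

theorem diff_bound (s : ℝ) (hs : 0 < s) (n : ℕ) (hn : 1 ≤ n) :
    0 ≤ (n : ℝ) ^ (-s) - ((n + 1 : ℕ) : ℝ) ^ (-s) ∧
      (n : ℝ) ^ (-s) - ((n + 1 : ℕ) : ℝ) ^ (-s) ≤ s / n := by
  have hn0 : (0 : ℝ) < n := by exact_mod_cast hn
  constructor
  · rw [sub_nonneg]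
    apply Real.rpow_le_rpow_of_nonpos hn0 (by push_cast; linarith) (by linarith)
  · have h1 : ((n + 1 : ℕ) : ℝ) = n * (1 + 1 / n) := by
      push_cast
      field_simp
    have h2 : (0 : ℝ) < 1 + 1 / n := by positivity
    rw [h1, Real.mul_rpow hn0.le h2.le]
    have h3 : 1 - s / n ≤ (1 + 1 / (n : ℝ)) ^ (-s) := by
      rw [Real.rpow_def_of_pos h2]
      have h4 : Real.log (1 + 1 / (n : ℝ)) ≤ 1 / n := by
        have := Real.log_le_sub_one_of_pos h2
        linarith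
      have h5 := Real.add_one_le_exp (Real.log (1 + 1 / (n : ℝ)) * -s)
      have h6 : s * Real.log (1 + 1 / (n : ℝ)) ≤ s * (1 / n) :=
        mul_le_mul_of_nonneg_left h4 hs.le
      have h7 : s * (1 / (n : ℝ)) = s / n := by ring
      linarith
    have h8 : (n : ℝ) ^ (-s) ≤ 1 := by
      apply Real.rpow_le_one_of_one_le_of_nonpos (by exact_mod_cast hn) (by linarith)
    have h9 : 0 ≤ (n : ℝ) ^ (-s) := Real.rpow_nonneg hn0.le _
    have h10 : 0 ≤ s / n := by positivity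
    nlinarith [mul_le_mul_of_nonneg_left h3 h9]

theorem term_bound (s : ℝ) (hs : 0 < s) (n : ℕ) (hn : 1 ≤ n) :
    ((n + 1 : ℕ) : ℝ) ^ (-(1 + s)) ≤ 1 / s * ((n : ℝ) ^ (-s) - ((n + 1 : ℕ) : ℝ) ^ (-s)) := by
  have hn0 : (0 : ℝ) < n := by exact_mod_cast hn
  set m : ℝ := ((n + 1 : ℕ) : ℝ) with hm
  have hm0 : 0 < m := by rw [hm]; positivity
  have hm1 : 1 < m := by rw [hm]; push_cast; linarith
  have h1 : (n : ℝ) = m * (1 - 1 / m) := by
    rw [hm]; push_cast; field_simp; ring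
  have h2 : (0 : ℝ) < 1 - 1 / m := by
    have : 1 / m < 1 := by rw [div_lt_one hm0]; exact hm1
    linarith
  rw [h1, Real.mul_rpow hm0.le h2.le]
  have h3 : 1 + s / m ≤ (1 - 1 / m) ^ (-s) := by
    rw [Real.rpow_def_of_pos h2]
    have h4 : Real.log (1 - 1 / m) ≤ - (1 / m) := by
      have := Real.log_le_sub_one_of_pos h2
      linarith
    have h5 := Real.add_one_le_exp (Real.log (1 - 1 / m) * -s)
    have h6 : s * Real.log (1 - 1 / m) ≤ s * -(1 / m) :=
      mul_le_mul_of_nonneg_left h4 hs.le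
    have h7 : s * -(1 / m) = - (s / m) := by ring
    linarith
  have h9 : 0 < m ^ (-s) := Real.rpow_pos_of_pos hm0 _
  have h10 : m ^ (-(1 + s)) = m ^ (-s) / m := by
    rw [show -(1 + s) = -s - 1 by ring, Real.rpow_sub hm0, Real.rpow_one]
  rw [h10]
  have h11 : m ^ (-s) * (s / m) ≤ m ^ (-s) * (1 - 1 / m) ^ (-s) - m ^ (-s) := by
    nlinarith [mul_le_mul_of_nonneg_left h3 h9.le]
  calc m ^ (-s) / m = 1 / s * (m ^ (-s) * (s / m)) := by field_simp
    _ ≤ _ := mul_le_mul_of_nonneg_left h11 (by positivity)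

theorem partial_zeta (s : ℝ) (hs : 0 < s) (N : ℕ) :
    ∑ n ∈ range (N + 2), (n : ℝ) ^ (-(1 + s)) ≤ 1 + 1 / s - 1 / s * ((N + 1 : ℕ) : ℝ) ^ (-s) := by
  induction N with
  | zero =>
    rw [Finset.sum_range_succ, Finset.sum_range_one]
    have h : ((0 : ℕ) : ℝ) ^ (-(1 + s)) = 0 := by
      rw [Nat.cast_zero]
      exact Real.zero_rpow (by linarith)
    rw [h]
    simp
  | succ N ih =>
    rw [Finset.sum_range_succ]
    have h := term_bound s hs (N + 1) (by omega)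
    have e : N + 1 + 1 = N + 2 := rfl
    rw [mul_sub] at h
    linarith

/-- the zeta sum -/
theorem zeta_bound (s : ℝ) (hs : 0 < s) (hs1 : s ≤ 1) :
    Summable (fun n : ℕ => (n : ℝ) ^ (-(1 + s))) ∧ ∑' n : ℕ, (n : ℝ) ^ (-(1 + s)) ≤ 2 / s := by
  have hb : ∀ N : ℕ, ∑ n ∈ range N, (n : ℝ) ^ (-(1 + s)) ≤ 2 / s := by
    intro N
    have h1 : ∑ n ∈ range N, (n : ℝ) ^ (-(1 + s)) ≤ ∑ n ∈ range (N + 2), (n : ℝ) ^ (-(1 + s)) := by
      apply Finset.sum_le_sum_of_subset_of_nonneg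
      · intro x hx
        rw [Finset.mem_range] at hx ⊢
        omega
      · intro i _ _
        exact Real.rpow_nonneg (Nat.cast_nonneg _) _
    have h2 := partial_zeta s hs N
    have h3 : 0 ≤ 1 / s * ((N + 1 : ℕ) : ℝ) ^ (-s) := by positivity
    have h4 : (1 : ℝ) ≤ 1 / s := by rw [le_div_iff₀ hs]; linarith
    have h5 : 2 / s = 1 / s + 1 / s := by ring
    linarith
  exact ⟨summable_of_sum_range_le (fun n => Real.rpow_nonneg (Nat.cast_nonneg _) _) hb,
    Real.tsum_le_of_sum_range_le (fun n => Real.rpow_nonneg (Nat.cast_nonneg _) _) hb⟩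

/-- finite Euler products are bounded by the zeta sum -/
theorem euler_fin (s : ℝ) (hs : 0 < s) (hs1 : s ≤ 1) (T : Finset Nat.Primes) :
    s / 2 ≤ ∏ p ∈ T, (1 - ((p : ℕ) : ℝ) ^ (-(1 + s))) := by
  obtain ⟨hsum, hle⟩ := zeta_bound s hs hs1
  let g : ℕ →*₀ ℝ :=
    { toFun := fun n => (n : ℝ) ^ (-(1 + s))
      map_zero' := by
        rw [Nat.cast_zero]
        exact Real.zero_rpow (by linarith)
      map_one' := by simp
      map_mul' := fun a b => by
        rw [Nat.cast_mul, Real.mul_rpow (Nat.cast_nonneg _) (Nat.cast_nonneg _)] }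
  have hg : ∀ n : ℕ, g n = (n : ℝ) ^ (-(1 + s)) := fun n => rfl
  have hnorm : Summable (fun n => ‖g n‖) := by
    refine hsum.congr fun n => ?_
    rw [hg, Real.norm_of_nonneg (Real.rpow_nonneg (Nat.cast_nonneg _) _)]
  have hprod := EulerProduct.eulerProduct_completely_multiplicative_hasProd (f := g) hnorm
  have hlt : ∀ p : Nat.Primes, 0 < 1 - g p ∧ 1 - g p ≤ 1 := by
    intro p
    have h2 : (1 : ℝ) < ((p : ℕ) : ℝ) := by exact_mod_cast p.2.one_lt
    have h3 : ((p : ℕ) : ℝ) ^ (-(1 + s)) < 1 :=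
      Real.rpow_lt_one_of_one_lt_of_neg h2 (by linarith)
    have h4 : 0 ≤ ((p : ℕ) : ℝ) ^ (-(1 + s)) := Real.rpow_nonneg (by positivity) _
    rw [hg]
    constructor <;> linarith
  have hge : ∏ p ∈ T, (1 - g p)⁻¹ ≤ ∑' n, g n := by
    refine ge_of_tendsto hprod ?_
    filter_upwards [eventually_ge_atTop T] with T' hT'
    have hone : 1 ≤ ∏ p ∈ T' \ T, (1 - g p)⁻¹ := by
      have h := Finset.prod_le_prod (s := T' \ T) (f := fun _ : Nat.Primes => (1 : ℝ))
        (g := fun p : Nat.Primes => (1 - g p)⁻¹) (fun _ _ => zero_le_one)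
        (fun p _ => (one_le_inv₀ (hlt p).1).2 (hlt p).2)
      simpa using h
    have hT0 : 0 < ∏ p ∈ T, (1 - g p)⁻¹ := Finset.prod_pos fun p _ => inv_pos.2 (hlt p).1
    rw [← Finset.prod_sdiff hT']
    nlinarith
  have hpos : 0 < ∏ p ∈ T, (1 - g p) := Finset.prod_pos fun p _ => (hlt p).1
  rw [Finset.prod_inv_distrib] at hge
  have h5 : (∏ p ∈ T, (1 - g p))⁻¹ ≤ 2 / s := hge.trans hle
  have h6 : s / 2 ≤ ∏ p ∈ T, (1 - g p) := by
    rw [inv_le_comm₀ hpos (by positivity)] at h5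
    rwa [inv_div] at h5
  exact h6

end Pool.Agent.H304R3.MO
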