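import Mathlib
import Pool.Agent.H304R3.MO1

set_option autoImplicit false

namespace Pool.Agent.H304R3.MO

open Filter Topology Finset

/-- the twisted function -/
noncomputable def tw (f : ℕ → ℂ) (s : ℝ) (n : ℕ) : ℂ := f n * (((n : ℝ) ^ (-s) : ℝ) : ℂ)

theorem tw_zero (f : ℕ → ℂ) (s : ℝ) (hs : 0 < s) : tw f s 0 = 0 := by
  unfold tw
  rw [Nat.cast_zero, Real.zero_rpow (by linarith)]
  simp

theorem tw_one (f : ℕ → ℂ) (s : ℝ) (h1 : f 1 = 1) : tw f s 1 = 1 := by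
  unfold tw
  simp [h1]

theorem tw_norm (f : ℕ → ℂ) (s : ℝ) (n : ℕ) : ‖tw f s n‖ = ‖f n‖ * (n : ℝ) ^ (-s) := by
  unfold tw
  rw [norm_mul, Complex.norm_real, Real.norm_of_nonneg (Real.rpow_nonneg (Nat.cast_nonneg _) _)]

theorem tw_mul (f : ℕ → ℂ) (s : ℝ) (hs : 0 < s) (h1 : f 1 = 1)
    (hmul : ∀ m n : ℕ, 1 ≤ m → 1 ≤ n → Nat.Coprime m n → f (m * n) = f m * f n)
    {m n : ℕ} (h : Nat.Coprime m n) : tw f s (m * n) = tw f s m * tw f s n := by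
  rcases Nat.eq_zero_or_pos m with rfl | hm
  · rw [Nat.coprime_zero_left] at h
    subst h
    rw [Nat.zero_mul, tw_zero f s hs, zero_mul]
  rcases Nat.eq_zero_or_pos n with rfl | hn
  · rw [Nat.coprime_zero_right] at h
    subst h
    rw [Nat.mul_zero, tw_zero f s hs, mul_zero]
  unfold tw
  rw [hmul m n hm hn h, Nat.cast_mul, Real.mul_rpow (Nat.cast_nonneg _) (Nat.cast_nonneg _)]
  push_cast
  ring

theorem tw_summable (f : ℕ → ℂ) (s : ℝ) (hs : 0 < s) (hs1 : s ≤ 1) (B : ℝ)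
    (hB : ∀ n : ℕ, 1 ≤ n → ‖f n‖ ≤ B / n) : Summable (fun n => ‖tw f s n‖) := by
  obtain ⟨hsum, -⟩ := zeta_bound s hs hs1
  refine Summable.of_nonneg_of_le (fun n => norm_nonneg _) (fun n => ?_) (hsum.mul_left B)
  rcases Nat.eq_zero_or_pos n with rfl | hn
  · rw [tw_zero f s hs, Nat.cast_zero, Real.zero_rpow (by linarith)]
    simp
  · rw [tw_norm]
    have hn0 : (0 : ℝ) < n := by exact_mod_cast hn
    have h1 : (n : ℝ) ^ (-(1 + s)) = (n : ℝ) ^ (-s) / n := by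
      rw [show -(1 + s) = -s - 1 by ring, Real.rpow_sub hn0, Real.rpow_one]
    rw [h1]
    calc ‖f n‖ * (n : ℝ) ^ (-s) ≤ B / n * (n : ℝ) ^ (-s) :=
          mul_le_mul_of_nonneg_right (hB n hn) (Real.rpow_nonneg hn0.le _)
      _ = _ := by ring

/-- upper bound for the Dirichlet series near `0` -/
theorem upper (f : ℕ → ℂ) (s : ℝ) (hs : 0 < s) (hs1 : s ≤ 1) (B K : ℝ)
    (hB : ∀ n : ℕ, 1 ≤ n → ‖f n‖ ≤ B / n)
    (hK : ∀ n : ℕ, 1 ≤ n → ‖∑ k ∈ Icc 1 n, f k‖ ≤ K / n) :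
    ‖∑' n, tw f s n‖ ≤ K * (∑' n : ℕ, (1 : ℝ) / (n : ℝ) ^ 2) * s := by
  have hsumm := tw_summable f s hs hs1 B hB
  have hK0 : 0 ≤ K := by
    have h := hK 1 le_rfl
    have h0 : 0 ≤ ‖∑ k ∈ Icc 1 1, f k‖ := norm_nonneg _
    simpa using h0.trans h
  set Z : ℝ := ∑' n : ℕ, (1 : ℝ) / (n : ℝ) ^ 2 with hZ
  have hZs : Summable (fun n : ℕ => (1 : ℝ) / (n : ℝ) ^ 2) :=
    Real.summable_one_div_nat_pow.2 one_lt_two
  have hpart : ∀ N : ℕ, 1 ≤ N → ‖∑ n ∈ range (N + 1), tw f s n‖ ≤ K / N + K * Z * s := by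
    intro N hN
    have h1 : ∑ n ∈ range (N + 1), tw f s n = ∑ n ∈ Icc 1 N, tw f s n := by
      rw [Finset.range_eq_Ico, Finset.sum_eq_sum_Ico_succ_bot (by omega), tw_zero f s hs, zero_add]
      rfl
    rw [h1]
    have h2 := abel f (fun n => (((n : ℝ) ^ (-s) : ℝ) : ℂ)) N
    have h3 : ∑ n ∈ Icc 1 N, tw f s n = ∑ n ∈ Icc 1 N, f n * (((n : ℝ) ^ (-s) : ℝ) : ℂ) := rfl
    rw [h3, h2]
    refine (norm_add_le _ _).trans (add_le_add ?_ ?_)
    · rw [norm_mul, Complex.norm_real,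
        Real.norm_of_nonneg (Real.rpow_nonneg (Nat.cast_nonneg _) _)]
      have h4 : ((N + 1 : ℕ) : ℝ) ^ (-s) ≤ 1 :=
        Real.rpow_le_one_of_one_le_of_nonpos (by push_cast; linarith [Nat.cast_nonneg (α := ℝ) N])
          (by linarith)
      calc ‖∑ k ∈ Icc 1 N, f k‖ * ((N + 1 : ℕ) : ℝ) ^ (-s) ≤ K / N * 1 :=
            mul_le_mul (hK N hN) h4 (Real.rpow_nonneg (Nat.cast_nonneg _) _)
              (div_nonneg hK0 (Nat.cast_nonneg _))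
        _ = K / N := mul_one _
    · refine (norm_sum_le _ _).trans ?_
      have h5 : ∀ n ∈ Icc 1 N, ‖(∑ k ∈ Icc 1 n, f k) *
          ((((n : ℝ) ^ (-s) : ℝ) : ℂ) - ((((n + 1 : ℕ) : ℝ) ^ (-s) : ℝ) : ℂ))‖ ≤
            K * s * ((1 : ℝ) / (n : ℝ) ^ 2) := by
        intro n hn
        rw [Finset.mem_Icc] at hn
        obtain ⟨d1, d2⟩ := diff_bound s hs n hn.1
        rw [norm_mul, ← Complex.ofReal_sub, Complex.norm_real, Real.norm_of_nonneg d1]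
        calc ‖∑ k ∈ Icc 1 n, f k‖ * ((n : ℝ) ^ (-s) - ((n + 1 : ℕ) : ℝ) ^ (-s))
            ≤ K / n * (s / n) := mul_le_mul (hK n hn.1) d2 d1 (div_nonneg hK0 (Nat.cast_nonneg _))
          _ = _ := by ring
      refine (Finset.sum_le_sum h5).trans ?_
      rw [← Finset.mul_sum]
      have h6 : ∑ n ∈ Icc 1 N, (1 : ℝ) / (n : ℝ) ^ 2 ≤ Z :=
        hZs.sum_le_tsum _ (fun n _ => by positivity)
      calc K * s * ∑ n ∈ Icc 1 N, (1 : ℝ) / (n : ℝ) ^ 2 ≤ K * s * Z :=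
            mul_le_mul_of_nonneg_left h6 (mul_nonneg hK0 hs.le)
        _ = _ := by ring
  have hlim : Tendsto (fun N : ℕ => ‖∑ n ∈ range (N + 1), tw f s n‖) atTop
      (𝓝 ‖∑' n, tw f s n‖) := by
    have h := (hsumm.of_norm.hasSum.tendsto_sum_nat).norm
    exact h.comp (tendsto_add_atTop_nat 1)
  have hlim2 : Tendsto (fun N : ℕ => K / (N : ℝ) + K * Z * s) atTop (𝓝 (0 + K * Z * s)) :=
    (tendsto_const_div_atTop_nhds_zero_nat K).add_const _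
  rw [zero_add] at hlim2
  refine le_of_tendsto_of_tendsto hlim hlim2 ?_
  filter_upwards [eventually_ge_atTop 1] with N hN using hpart N hN

end Pool.Agent.H304R3.MO
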