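import Mathlib
import Pool.Agent.H304R3.MO2

set_option autoImplicit false

namespace Pool.Agent.H304R3.MO

open Filter Topology Finset

theorem tw_pow_norm (f : ℕ → ℂ) (s : ℝ) (B : ℝ) (hB : ∀ n : ℕ, 1 ≤ n → ‖f n‖ ≤ B / n)
    (p : ℕ) (hp : p.Prime) (e : ℕ) :
    ‖tw f s (p ^ e)‖ ≤ B * ((p : ℝ) ^ (-(1 + s))) ^ e := by
  have hp0 : (0 : ℝ) < p := by exact_mod_cast hp.pos
  rw [tw_norm]
  have h1 := hB (p ^ e) (Nat.one_le_pow _ _ hp.pos)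
  have h2 : ((p : ℝ) ^ (-(1 + s))) ^ e = (((p ^ e : ℕ) : ℝ) ^ (-s)) / ((p ^ e : ℕ) : ℝ) := by
    push_cast
    rw [show -(1 + s) = -s - 1 by ring, Real.rpow_sub hp0, Real.rpow_one, div_pow,
      ← Real.rpow_natCast ((p : ℝ) ^ (-s)) e, ← Real.rpow_mul hp0.le, ← Real.rpow_natCast (p : ℝ) e,
      ← Real.rpow_mul hp0.le]
    ring_nf
  rw [h2]
  calc ‖f (p ^ e)‖ * (((p ^ e : ℕ) : ℝ) ^ (-s)) ≤ B / ((p ^ e : ℕ) : ℝ) * (((p ^ e : ℕ) : ℝ) ^ (-s)) :=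
        mul_le_mul_of_nonneg_right h1 (Real.rpow_nonneg (Nat.cast_nonneg _) _)
    _ = _ := by ring

theorem x_bound (s : ℝ) (hs : 0 ≤ s) (p : ℕ) (hp : p.Prime) :
    0 < (p : ℝ) ^ (-(1 + s)) ∧ (p : ℝ) ^ (-(1 + s)) ≤ 1 / p ∧ (1 : ℝ) / p ≤ 1 / 2 := by
  have hp2 : (2 : ℝ) ≤ p := by exact_mod_cast hp.two_le
  have hp0 : (0 : ℝ) < p := by linarith
  refine ⟨Real.rpow_pos_of_pos hp0 _, ?_, ?_⟩
  · rw [one_div, ← Real.rpow_neg_one]
    exact Real.rpow_le_rpow_of_exponent_le (by linarith) (by linarith)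
  · exact one_div_le_one_div_of_le (by norm_num) hp2

/-- the local factor -/
noncomputable def loc (f : ℕ → ℂ) (s : ℝ) (p : ℕ) : ℂ := ∑' e : ℕ, tw f s (p ^ e)

theorem geo_summable (B x : ℝ) (hx0 : 0 < x) (hx : x ≤ 1 / 2) (j : ℕ) :
    Summable (fun e : ℕ => B * x ^ (e + j)) ∧ ∑' e : ℕ, B * x ^ (e + j) = B * x ^ j / (1 - x) := by
  have h1 : x < 1 := by linarith
  have e1 : (fun e : ℕ => B * x ^ (e + j)) = fun e : ℕ => (B * x ^ j) * x ^ e := by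
    funext e
    rw [pow_add]; ring
  rw [e1]
  have hs := summable_geometric_of_lt_one hx0.le h1
  refine ⟨hs.mul_left _, ?_⟩
  rw [tsum_mul_left, tsum_geometric_of_lt_one hx0.le h1]
  rfl

theorem loc_summable (f : ℕ → ℂ) (s : ℝ) (hs : 0 ≤ s) (B : ℝ)
    (hB : ∀ n : ℕ, 1 ≤ n → ‖f n‖ ≤ B / n) (p : ℕ) (hp : p.Prime) (j : ℕ) :
    Summable (fun e : ℕ => tw f s (p ^ (e + j))) := by
  obtain ⟨x0, x1, x2⟩ := x_bound s hs p hp
  exact Summable.of_norm_bounded (geo_summable B _ x0 (x1.trans x2) j).1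
    (fun e => tw_pow_norm f s B hB p hp (e + j))

theorem loc_tail (f : ℕ → ℂ) (s : ℝ) (hs : 0 ≤ s) (B : ℝ) (hB0 : 0 ≤ B)
    (hB : ∀ n : ℕ, 1 ≤ n → ‖f n‖ ≤ B / n) (p : ℕ) (hp : p.Prime) (j : ℕ) :
    ‖∑' e : ℕ, tw f s (p ^ (e + j))‖ ≤ 2 * B * ((p : ℝ) ^ (-(1 + s))) ^ j := by
  obtain ⟨x0, x1, x2⟩ := x_bound s hs p hp
  set x : ℝ := (p : ℝ) ^ (-(1 + s)) with hx
  obtain ⟨g1, g2⟩ := geo_summable B x x0 (x1.trans x2) j
  have h1 : ‖∑' e : ℕ, tw f s (p ^ (e + j))‖ ≤ ∑' e : ℕ, B * x ^ (e + j) :=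
    tsum_of_norm_bounded g1.hasSum (fun e => tw_pow_norm f s B hB p hp (e + j))
  rw [g2] at h1
  refine h1.trans ?_
  rw [div_le_iff₀ (by linarith)]
  have h2 : 0 ≤ B * x ^ j := by positivity
  nlinarith [mul_le_mul_of_nonneg_left (show (1 : ℝ) / 2 ≤ 1 - x by linarith) h2]

theorem loc_eq1 (f : ℕ → ℂ) (h1 : f 1 = 1) (s : ℝ) (hs : 0 ≤ s) (B : ℝ)
    (hB : ∀ n : ℕ, 1 ≤ n → ‖f n‖ ≤ B / n) (p : ℕ) (hp : p.Prime) :
    loc f s p = 1 + ∑' e : ℕ, tw f s (p ^ (e + 1)) := by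
  unfold loc
  have h := loc_summable f s hs B hB p hp 0
  simp only [add_zero] at h
  rw [h.tsum_eq_zero_add, pow_zero, tw_one f s h1]

theorem loc_eq2 (f : ℕ → ℂ) (h1 : f 1 = 1) (s : ℝ) (hs : 0 ≤ s) (B : ℝ)
    (hB : ∀ n : ℕ, 1 ≤ n → ‖f n‖ ≤ B / n) (p : ℕ) (hp : p.Prime) :
    loc f s p = 1 + tw f s p + ∑' e : ℕ, tw f s (p ^ (e + 2)) := by
  rw [loc_eq1 f h1 s hs B hB p hp]
  have h := loc_summable f s hs B hB p hp 1
  rw [h.tsum_eq_zero_add, zero_add, pow_one, add_assoc]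

/-- bound for exceptional primes -/
theorem loc_exc (f : ℕ → ℂ) (h1 : f 1 = 1) (s : ℝ) (hs : 0 ≤ s) (B : ℝ) (hB0 : 0 ≤ B)
    (hB : ∀ n : ℕ, 1 ≤ n → ‖f n‖ ≤ B / n) (p : ℕ) (hp : p.Prime) (hpB : 4 * B ≤ p) :
    Real.exp (-(4 * B) * (1 / p)) ≤ ‖loc f s p‖ := by
  obtain ⟨x0, x1, x2⟩ := x_bound s hs p hp
  have hp0 : (0 : ℝ) < p := by exact_mod_cast hp.pos
  have ht := loc_tail f s hs B hB0 hB p hp 1
  rw [pow_one] at ht
  set y : ℝ := 2 * B * (1 / p) with hy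
  have hy0 : 0 ≤ y := by positivity
  have hy1 : y ≤ 1 / 2 := by
    rw [hy, mul_one_div, div_le_iff₀ hp0]
    linarith
  have ht2 : ‖∑' e : ℕ, tw f s (p ^ (e + 1))‖ ≤ y :=
    ht.trans (mul_le_mul_of_nonneg_left x1 (by positivity))
  have h3 : 1 - y ≤ ‖loc f s p‖ := by
    rw [loc_eq1 f h1 s hs B hB p hp]
    have := norm_sub_norm_le (1 : ℂ) (-∑' e : ℕ, tw f s (p ^ (e + 1)))
    rw [norm_neg, norm_one, sub_neg_eq_add] at this
    linarith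
  have h4 : Real.exp (-(4 * B) * (1 / p)) ≤ 1 - y := by
    have e1 : -(4 * B) * (1 / (p : ℝ)) = -(2 * y) := by rw [hy]; ring
    rw [e1, Real.exp_neg]
    have h5 : 1 + 2 * y ≤ Real.exp (2 * y) := by
      have := Real.add_one_le_exp (2 * y)
      linarith
    have h6 : (Real.exp (2 * y))⁻¹ ≤ (1 + 2 * y)⁻¹ := inv_anti₀ (by positivity) h5
    refine h6.trans ?_
    rw [inv_le_iff_one_le_mul₀ (by positivity)]
    nlinarith
  linarith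

/-- bound for the other large primes -/
theorem loc_good (f : ℕ → ℂ) (h1 : f 1 = 1) (s : ℝ) (hs : 0 ≤ s) (B : ℝ) (hB0 : 0 ≤ B)
    (hB : ∀ n : ℕ, 1 ≤ n → ‖f n‖ ≤ B / n) (p : ℕ) (hp : p.Prime) (θ : ℝ) (hθ0 : 0 ≤ θ)
    (hθ : θ < 1) (hpB : 4 * B ≤ (1 - θ) * p) (hfp : ‖f p‖ ≤ θ / p) :
    (1 - (p : ℝ) ^ (-(1 + s))) ^ ((1 + θ) / 2) ≤ ‖loc f s p‖ := by
  obtain ⟨x0, x1, x2⟩ := x_bound s hs p hp
  have hp0 : (0 : ℝ) < p := by exact_mod_cast hp.pos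
  have ht := loc_tail f s hs B hB0 hB p hp 2
  have hx1 : (p : ℝ) ^ (-(1 + s)) = (p : ℝ) ^ (-s) / p := by
    rw [show -(1 + s) = -s - 1 by ring, Real.rpow_sub hp0, Real.rpow_one]
  have hfirst : ‖tw f s p‖ ≤ θ * (p : ℝ) ^ (-(1 + s)) := by
    rw [tw_norm, hx1]
    calc ‖f p‖ * (p : ℝ) ^ (-s) ≤ θ / p * (p : ℝ) ^ (-s) :=
          mul_le_mul_of_nonneg_right hfp (Real.rpow_nonneg hp0.le _)
      _ = _ := by ring
  set x : ℝ := (p : ℝ) ^ (-(1 + s)) with hx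
  have h2x : 2 * B * x ≤ (1 - θ) / 2 := by
    have : 2 * B * x ≤ 2 * B * (1 / p) := mul_le_mul_of_nonneg_left x1 (by positivity)
    refine this.trans ?_
    rw [mul_one_div, div_le_iff₀ hp0]
    linarith
  have h3 : 1 - (1 + θ) / 2 * x ≤ ‖loc f s p‖ := by
    rw [loc_eq2 f h1 s hs B hB p hp]
    have h4 := norm_sub_norm_le (1 : ℂ) (-(tw f s p + ∑' e : ℕ, tw f s (p ^ (e + 2))))
    rw [norm_neg, norm_one, sub_neg_eq_add, ← add_assoc] at h4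
    have h5 := norm_add_le (tw f s p) (∑' e : ℕ, tw f s (p ^ (e + 2)))
    nlinarith
  refine le_trans ?_ h3
  have h6 := rpow_one_add_le_one_add_mul_self (s := -x) (by linarith)
    (p := (1 + θ) / 2) (by linarith) (by linarith)
  have e1 : 1 - x = 1 + -x := by ring
  rw [e1]
  linarith

/-- continuity of the local factor at `0` -/
theorem loc_tendsto (f : ℕ → ℂ) (B : ℝ) (hB : ∀ n : ℕ, 1 ≤ n → ‖f n‖ ≤ B / n) (p : ℕ)
    (hp : p.Prime) :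
    Tendsto (fun s : ℝ => loc f s p) (𝓝[>] 0) (𝓝 (∑' e : ℕ, f (p ^ e))) := by
  unfold loc
  have hp0 : (0 : ℝ) < p := by exact_mod_cast hp.pos
  have hp1 : (1 : ℝ) ≤ p := by exact_mod_cast hp.one_lt.le
  have hp2 : (1 : ℝ) / p ≤ 1 / 2 := by
    apply one_div_le_one_div_of_le (by norm_num)
    exact_mod_cast hp.two_le
  have hgs := geo_summable B (1 / p) (by positivity) hp2 0
  simp only [add_zero] at hgs
  refine tendsto_tsum_of_dominated_convergence (bound := fun e : ℕ => B * (1 / (p : ℝ)) ^ e)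
    hgs.1 ?_ ?_
  · intro e
    unfold tw
    have h1 : Tendsto (fun s : ℝ => (((p ^ e : ℕ) : ℝ) ^ (-s) : ℝ)) (𝓝[>] 0) (𝓝 1) := by
      have hpe : (0 : ℝ) < ((p ^ e : ℕ) : ℝ) := by
        push_cast; positivity
      have h2 : Continuous (fun s : ℝ => (((p ^ e : ℕ) : ℝ) ^ (-s) : ℝ)) :=
        Real.continuous_const_rpow hpe.ne' |>.comp continuous_neg
      have h3 := (h2.tendsto 0).mono_left (nhdsWithin_le_nhds (s := Set.Ioi 0))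
      simpa using h3
    have h4 := ((Complex.continuous_ofReal.tendsto 1).comp h1).const_mul (f (p ^ e))
    simpa using h4
  · filter_upwards [self_mem_nhdsWithin] with s hs e
    have hs0 : (0 : ℝ) < s := hs
    refine (tw_pow_norm f s B hB p hp e).trans ?_
    have hB0 : 0 ≤ B := by
      have h := (norm_nonneg _).trans (hB 1 le_rfl)
      simpa using h
    refine mul_le_mul_of_nonneg_left ?_ hB0
    exact pow_le_pow_left₀ (x_bound s hs0.le p hp).1.le (x_bound s hs0.le p hp).2.1 e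

end Pool.Agent.H304R3.MO
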