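import Mathlib
import Pool.Agent.H304R3.MO3

set_option autoImplicit false

namespace Pool.Agent.H304R3.MO

open Filter Topology Finset

theorem f_bound (f : ℕ → ℂ) (h1 : f 1 = 1) (K : ℝ)
    (hK : ∀ n : ℕ, 1 ≤ n → ‖∑ k ∈ Icc 1 n, f k‖ ≤ K / n) :
    1 ≤ K ∧ ∀ n : ℕ, 1 ≤ n → ‖f n‖ ≤ 3 * K / n := by
  have hK1 : 1 ≤ K := by
    have h := hK 1 le_rfl
    simpa [h1] using h
  refine ⟨hK1, fun n hn => ?_⟩
  rcases Nat.lt_or_ge n 2 with h2 | h2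
  · have : n = 1 := by omega
    subst this
    rw [h1, norm_one]
    push_cast
    linarith
  · obtain ⟨m, rfl⟩ : ∃ m, n = m + 1 := ⟨n - 1, by omega⟩
    have hm : 1 ≤ m := by omega
    have e : f (m + 1) = ∑ k ∈ Icc 1 (m + 1), f k - ∑ k ∈ Icc 1 m, f k := by
      rw [Finset.sum_Icc_succ_top (by omega)]
      ring
    rw [e]
    have hm0 : (0 : ℝ) < m := by exact_mod_cast hm
    have hm1 : (1 : ℝ) ≤ m := by exact_mod_cast hm
    have h3 : K / (m : ℝ) ≤ 2 * K / ((m + 1 : ℕ) : ℝ) := by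
      push_cast
      rw [div_le_div_iff₀ hm0 (by positivity)]
      nlinarith
    calc ‖∑ k ∈ Icc 1 (m + 1), f k - ∑ k ∈ Icc 1 m, f k‖
        ≤ ‖∑ k ∈ Icc 1 (m + 1), f k‖ + ‖∑ k ∈ Icc 1 m, f k‖ := norm_sub_le _ _
      _ ≤ K / ((m + 1 : ℕ) : ℝ) + K / (m : ℝ) := add_le_add (hK _ (by omega)) (hK m hm)
      _ ≤ K / ((m + 1 : ℕ) : ℝ) + 2 * K / ((m + 1 : ℕ) : ℝ) := by linarith
      _ = _ := by ring

/-- lower bound for finite products of local factors -/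
theorem prod_lower (f : ℕ → ℂ) (h1 : f 1 = 1) (s : ℝ) (hs : 0 < s) (hs1 : s ≤ 1) (B : ℝ)
    (hB0 : 0 ≤ B) (hB : ∀ n : ℕ, 1 ≤ n → ‖f n‖ ≤ B / n) (θ : ℝ) (hθ0 : 0 ≤ θ) (hθ : θ < 1)
    (E : Set Nat.Primes) (hE : Summable (E.indicator (fun p : Nat.Primes => (1 : ℝ) / (p : ℕ))))
    (hEb : ∀ p : Nat.Primes, p ∉ E → ‖f p‖ ≤ θ / (p : ℕ)) (U : Finset Nat.Primes)
    (hU : ∀ p ∈ U, 4 * B ≤ (1 - θ) * (p : ℕ)) :
    Real.exp (-(4 * B) * ∑' p, E.indicator (fun p : Nat.Primes => (1 : ℝ) / (p : ℕ)) p) *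
      (s / 2) ^ ((1 + θ) / 2) ≤ ∏ p ∈ U, ‖loc f s p‖ := by
  set w : Nat.Primes → ℝ := E.indicator (fun p : Nat.Primes => (1 : ℝ) / (p : ℕ)) with hw
  have hw0 : ∀ p, 0 ≤ w p := fun p => Set.indicator_nonneg (fun _ _ => by positivity) p
  have hx : ∀ p : Nat.Primes, 0 ≤ 1 - ((p : ℕ) : ℝ) ^ (-(1 + s)) ∧
      1 - ((p : ℕ) : ℝ) ^ (-(1 + s)) ≤ 1 := by
    intro p
    obtain ⟨x0, x1, x2⟩ := x_bound s hs.le p p.2
    constructor <;> linarith
  have hterm : ∀ p ∈ U, Real.exp (-(4 * B) * w p) *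
      (1 - ((p : ℕ) : ℝ) ^ (-(1 + s))) ^ ((1 + θ) / 2) ≤ ‖loc f s p‖ := by
    intro p hp
    have hp4 := hU p hp
    have hpp : 4 * B ≤ (p : ℕ) := by
      refine hp4.trans ?_
      have : (0 : ℝ) ≤ (p : ℕ) := Nat.cast_nonneg _
      nlinarith
    by_cases hpE : p ∈ E
    · have e1 : w p = 1 / (p : ℕ) := Set.indicator_of_mem hpE _
      rw [e1]
      have h2 := loc_exc f h1 s hs.le B hB0 hB p p.2 hpp
      have h3 : (1 - ((p : ℕ) : ℝ) ^ (-(1 + s))) ^ ((1 + θ) / 2) ≤ 1 :=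
        Real.rpow_le_one (hx p).1 (hx p).2 (by linarith)
      calc Real.exp (-(4 * B) * (1 / (p : ℕ))) * (1 - ((p : ℕ) : ℝ) ^ (-(1 + s))) ^ ((1 + θ) / 2)
          ≤ Real.exp (-(4 * B) * (1 / (p : ℕ))) * 1 :=
            mul_le_mul_of_nonneg_left h3 (Real.exp_pos _).le
        _ ≤ _ := by rw [mul_one]; exact h2
    · have e1 : w p = 0 := Set.indicator_of_notMem hpE _
      rw [e1, mul_zero, Real.exp_zero, one_mul]
      exact loc_good f h1 s hs.le B hB0 hB p p.2 θ hθ0 hθ hp4 (hEb p hpE)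
  refine le_trans ?_ (Finset.prod_le_prod (fun p _ => mul_nonneg (Real.exp_pos _).le
    (Real.rpow_nonneg (hx p).1 _)) hterm)
  rw [Finset.prod_mul_distrib, ← Real.exp_sum, ← Finset.mul_sum,
    Real.finsetProd_rpow U (fun p => 1 - ((p : ℕ) : ℝ) ^ (-(1 + s))) (fun p _ => (hx p).1)]
  apply mul_le_mul
  · apply Real.exp_le_exp.2
    have h4 : ∑ p ∈ U, w p ≤ ∑' p, w p := hE.sum_le_tsum U (fun p _ => hw0 p)
    nlinarith
  · exact Real.rpow_le_rpow (by positivity) (euler_fin s hs hs1 U) (by linarith)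
  · positivity
  · exact (Real.exp_pos _).le

theorem core (f : ℕ → ℂ) (h1 : f 1 = 1)
    (hmul : ∀ m n : ℕ, 1 ≤ m → 1 ≤ n → Nat.Coprime m n → f (m * n) = f m * f n) (K : ℝ)
    (hK : ∀ n : ℕ, 1 ≤ n → ‖∑ k ∈ Icc 1 n, f k‖ ≤ K / n)
    (hloc : ∀ p : ℕ, p.Prime →
      ∃ L : ℂ, L ≠ 0 ∧ Tendsto (fun K : ℕ => ∑ k ∈ range K, f (p ^ k)) atTop (𝓝 L))
    (θ : ℝ) (hθ0 : 0 ≤ θ) (hθ : θ < 1)
    (E : Set Nat.Primes) (hE : Summable (E.indicator (fun p : Nat.Primes => (1 : ℝ) / (p : ℕ))))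
    (hEb : ∀ p : Nat.Primes, p ∉ E → ‖f p‖ ≤ θ / (p : ℕ)) : False := by
  obtain ⟨hK1, hB⟩ := f_bound f h1 K hK
  set B : ℝ := 3 * K with hBdef
  have hB0 : 0 ≤ B := by rw [hBdef]; linarith
  -- local sums
  have hL : ∀ p : ℕ, p.Prime → ∑' e : ℕ, f (p ^ e) ≠ 0 := by
    intro p hp
    obtain ⟨L, hL0, hL⟩ := hloc p hp
    have hs := loc_summable f 0 le_rfl B hB p hp 0
    have e : (fun e : ℕ => tw f 0 (p ^ (e + 0))) = fun e : ℕ => f (p ^ e) := by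
      funext e
      unfold tw
      simp
    rw [e] at hs
    rw [tendsto_nhds_unique hs.hasSum.tendsto_sum_nat hL]
    exact hL0
  -- small primes
  obtain ⟨P0, hP0⟩ := exists_nat_gt (4 * B / (1 - θ))
  have hfin : {p : Nat.Primes | (p : ℕ) < P0}.Finite :=
    (Set.finite_Iio P0).preimage Subtype.val_injective.injOn
  set A : Finset Nat.Primes := hfin.toFinset with hA
  have hlarge : ∀ p : Nat.Primes, p ∉ A → 4 * B ≤ (1 - θ) * (p : ℕ) := by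
    intro p hp
    have h2 : ¬ ((p : ℕ) < P0) := fun h => hp (hfin.mem_toFinset.2 h)
    have h3 : (P0 : ℝ) ≤ (p : ℕ) := by exact_mod_cast Nat.le_of_not_lt h2
    rw [div_lt_iff₀ (by linarith)] at hP0
    nlinarith
  set cA : ℝ := ∏ p ∈ A, (‖∑' e : ℕ, f ((p : ℕ) ^ e)‖ / 2) with hcA
  have hcA0 : 0 < cA := Finset.prod_pos fun p _ => by
    have := norm_pos_iff.2 (hL p p.2)
    linarith
  have hevA : ∀ᶠ s : ℝ in 𝓝[>] 0, ∀ p ∈ A, ‖∑' e : ℕ, f ((p : ℕ) ^ e)‖ / 2 ≤ ‖loc f s p‖ := by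
    rw [Filter.eventually_all_finset]
    intro p _
    have h2 := (loc_tendsto f B hB p p.2).norm
    have h3 := norm_pos_iff.2 (hL p p.2)
    exact h2.eventually (eventually_ge_nhds (by linarith))
  set W : ℝ := ∑' p, E.indicator (fun p : Nat.Primes => (1 : ℝ) / (p : ℕ)) p with hW
  set θ' : ℝ := (1 + θ) / 2 with hθ'
  have hθ'1 : θ' < 1 := by rw [hθ']; linarith
  set C0 : ℝ := cA * Real.exp (-(4 * B) * W) with hC0
  have hC0pos : 0 < C0 := by rw [hC0]; positivity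
  set Z : ℝ := ∑' n : ℕ, (1 : ℝ) / (n : ℝ) ^ 2 with hZ
  have hmain : ∀ᶠ s : ℝ in 𝓝[>] 0, C0 ≤ K * Z * ((2 : ℝ) ^ θ' * s ^ (1 - θ')) := by
    have hev1 : ∀ᶠ s : ℝ in 𝓝[>] 0, s ≤ 1 := by
      have : ∀ᶠ s : ℝ in 𝓝 0, s ≤ 1 := eventually_le_nhds (by norm_num)
      exact this.filter_mono nhdsWithin_le_nhds
    filter_upwards [hevA, self_mem_nhdsWithin, hev1] with s hsA hs0 hs1
    have hs : 0 < s := hs0
    have hsumm := tw_summable f s hs hs1 B hB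
    have hprod := EulerProduct.eulerProduct_hasProd (f := tw f s) (tw_one f s h1)
      (fun {m n} h => tw_mul f s hs h1 hmul h) hsumm (tw_zero f s hs)
    have hlow : C0 * (s / 2) ^ θ' ≤ ‖∑' n, tw f s n‖ := by
      have ht := hprod.norm
      refine ge_of_tendsto ht ?_
      filter_upwards [eventually_ge_atTop A] with T hT
      rw [← Finset.prod_sdiff hT, mul_comm (∏ p ∈ T \ A, ‖∑' e, tw f s ((p : ℕ) ^ e)‖)]
      have h2 : cA ≤ ∏ p ∈ A, ‖∑' e, tw f s ((p : ℕ) ^ e)‖ :=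
        Finset.prod_le_prod (fun p _ => by positivity) (fun p hp => hsA p hp)
      have h3 := prod_lower f h1 s hs hs1 B hB0 hB θ hθ0 hθ E hE hEb (T \ A)
        (fun p hp => hlarge p (Finset.mem_sdiff.1 hp).2)
      calc C0 * (s / 2) ^ θ' = cA * (Real.exp (-(4 * B) * W) * (s / 2) ^ θ') := by
            rw [hC0]; ring
        _ ≤ _ := mul_le_mul h2 h3 (by positivity)
            (Finset.prod_nonneg fun p _ => norm_nonneg _)
    have hup := upper f s hs hs1 B K hB hK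
    have h5 : C0 * (s / 2) ^ θ' ≤ K * Z * s := hlow.trans hup
    have h6 : 0 < (s / 2) ^ θ' := Real.rpow_pos_of_pos (by linarith) _
    have h7 : K * Z * ((2 : ℝ) ^ θ' * s ^ (1 - θ')) * (s / 2) ^ θ' = K * Z * s := by
      rw [Real.div_rpow hs.le (by norm_num), Real.rpow_sub hs, Real.rpow_one]
      have h8 : s ^ θ' ≠ 0 := (Real.rpow_pos_of_pos hs _).ne'
      have h9 : (2 : ℝ) ^ θ' ≠ 0 := (Real.rpow_pos_of_pos (by norm_num) _).ne'
      field_simp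
    rw [← h7] at h5
    exact le_of_mul_le_mul_right h5 h6
  have hlim : Tendsto (fun s : ℝ => K * Z * ((2 : ℝ) ^ θ' * s ^ (1 - θ'))) (𝓝[>] 0) (𝓝 0) := by
    have h2 : Tendsto (fun s : ℝ => s ^ (1 - θ')) (𝓝[>] 0) (𝓝 0) := by
      have h3 := (Real.continuousAt_rpow_const 0 (1 - θ') (Or.inr (by linarith))).tendsto
      rw [Real.zero_rpow (by linarith)] at h3
      exact h3.mono_left nhdsWithin_le_nhds
    have h4 := (h2.const_mul ((2 : ℝ) ^ θ')).const_mul (K * Z)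
    simpa using h4
  have := ge_of_tendsto hlim hmain
  linarith

end Pool.Agent.H304R3.MO
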