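import Mathlib

set_option autoImplicit false

namespace Pool.Agent.H304R3.Ultra

open Filter

attribute [local instance] Ultrafilter.mul Ultrafilter.add Ultrafilter.semigroup
  Ultrafilter.addSemigroup

/-- Number of elements of `A` below `n`. -/
noncomputable def cnt (A : Set ℕ) (n : ℕ) : ℕ := by
  classical exact ((Finset.range n).filter (· ∈ A)).card

/-- `A` has positive upper density. -/
def PosDens (A : Set ℕ) : Prop := ∃ k : ℕ, ∀ N : ℕ, ∃ n ≥ N, 0 < n ∧ n ≤ k * cnt A n

lemma cnt_mono {A B : Set ℕ} (h : A ⊆ B) (n : ℕ) : cnt A n ≤ cnt B n := by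
  classical
  unfold cnt
  apply Finset.card_le_card
  intro x hx
  simp only [Finset.mem_filter] at hx ⊢
  exact ⟨hx.1, h hx.2⟩

lemma PosDens.mono {A B : Set ℕ} (h : A ⊆ B) (hA : PosDens A) : PosDens B := by
  obtain ⟨k, hk⟩ := hA
  refine ⟨k, fun N => ?_⟩
  obtain ⟨n, hn, h0, h1⟩ := hk N
  exact ⟨n, hn, h0, h1.trans (Nat.mul_le_mul_left k (cnt_mono h n))⟩

lemma cnt_union {A B : Set ℕ} (n : ℕ) : cnt (A ∪ B) n ≤ cnt A n + cnt B n := by
  classical
  unfold cnt
  refine le_trans (Finset.card_le_card ?_) (Finset.card_union_le _ _)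
  intro x hx
  simp only [Finset.mem_union, Finset.mem_filter, Set.mem_union] at hx ⊢
  tauto

lemma PosDens.union {A B : Set ℕ} (h : PosDens (A ∪ B)) : PosDens A ∨ PosDens B := by
  obtain ⟨k, hk⟩ := h
  by_contra hcon
  push Not at hcon
  obtain ⟨hA, hB⟩ := hcon
  unfold PosDens at hA hB
  push Not at hA hB
  obtain ⟨N1, h1⟩ := hA (2 * k)
  obtain ⟨N2, h2⟩ := hB (2 * k)
  obtain ⟨n, hn, h0, h3⟩ := hk (max N1 N2)
  have a1 := h1 n (le_trans (le_max_left _ _) hn) h0
  have a2 := h2 n (le_trans (le_max_right _ _) hn) h0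
  have a3 := cnt_union (A := A) (B := B) n
  have a4 : k * cnt (A ∪ B) n ≤ k * (cnt A n + cnt B n) := Nat.mul_le_mul_left k a3
  nlinarith

lemma not_posDens_empty : ¬ PosDens ∅ := by
  classical
  rintro ⟨k, hk⟩
  obtain ⟨n, -, h0, h1⟩ := hk 0
  have : cnt ∅ n = 0 := by simp [cnt]
  rw [this] at h1
  omega

lemma not_posDens_zero : ¬ PosDens {0} := by
  classical
  rintro ⟨k, hk⟩
  obtain ⟨n, hn, h0, h1⟩ := hk (k + 1)
  have : cnt {0} n ≤ 1 := by
    unfold cnt
    refine le_trans (Finset.card_le_card (t := {0}) ?_) (by simp)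
    intro x hx
    simp only [Finset.mem_filter, Set.mem_singleton_iff] at hx
    simp [hx.2]
  have : k * cnt {0} n ≤ k * 1 := Nat.mul_le_mul_left k this
  omega

lemma posDens_univ : PosDens Set.univ := by
  classical
  refine ⟨1, fun N => ⟨N + 1, by omega, by omega, ?_⟩⟩
  simp [cnt]

/-- Shifts of sets of positive density. -/
lemma posDens_shift {A : Set ℕ} (m : ℕ) (h : PosDens {x | m + x ∈ A}) : PosDens A := by
  classical
  obtain ⟨k, hk⟩ := h
  refine ⟨2 * k, fun N => ?_⟩
  obtain ⟨n, hn, h0, h1⟩ := hk (N + m + 1)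
  refine ⟨n + m, by omega, by omega, ?_⟩
  have : cnt {x | m + x ∈ A} n ≤ cnt A (n + m) := by
    unfold cnt
    refine Finset.card_le_card_of_injOn (fun x => m + x) ?_ ?_
    · intro x hx
      simp only [Finset.coe_filter, Finset.mem_range, Set.mem_ofPred_eq] at hx ⊢
      exact ⟨by omega, hx.2⟩
    · intro x _ y _ hxy
      simpa using hxy
  have h2 : k * cnt {x | m + x ∈ A} n ≤ k * cnt A (n + m) := Nat.mul_le_mul_left k this
  have h3 : 2 * k * cnt A (n + m) = 2 * (k * cnt A (n + m)) := by ring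
  omega

/-- Dilates of sets of positive density. -/
lemma posDens_dilate {A : Set ℕ} {m : ℕ} (hm : 0 < m) (h : PosDens {x | m * x ∈ A}) :
    PosDens A := by
  classical
  obtain ⟨k, hk⟩ := h
  refine ⟨m * k, fun N => ?_⟩
  obtain ⟨n, hn, h0, h1⟩ := hk N
  refine ⟨m * n, le_trans hn (Nat.le_mul_of_pos_left n hm), Nat.mul_pos hm h0, ?_⟩
  have : cnt {x | m * x ∈ A} n ≤ cnt A (m * n) := by
    unfold cnt
    refine Finset.card_le_card_of_injOn (fun x => m * x) ?_ ?_
    · intro x hx
      simp only [Finset.coe_filter, Finset.mem_range, Set.mem_ofPred_eq] at hx ⊢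
      exact ⟨Nat.mul_lt_mul_of_pos_left hx.1 hm, hx.2⟩
    · intro x _ y _ hxy
      exact Nat.eq_of_mul_eq_mul_left hm hxy
  calc m * n ≤ m * (k * cnt {x | m * x ∈ A} n) := Nat.mul_le_mul_left m h1
    _ ≤ m * (k * cnt A (m * n)) := Nat.mul_le_mul_left m (Nat.mul_le_mul_left k this)
    _ = m * k * cnt A (m * n) := by ring

/-- The return property. -/
lemma return_lemma {B : Set ℕ} (hB : PosDens B) (s : ℕ → ℕ) (hs : StrictMono s) :
    ∃ i j, i < j ∧ ∃ u ∈ B, ∃ v ∈ B, v = u + (s j - s i) := by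
  classical
  by_contra hcon
  push Not at hcon
  obtain ⟨k, hk⟩ := hB
  obtain ⟨n, hn, h0, h1⟩ := hk (s (2 * k) + 1)
  -- translates
  have hdisj : ∀ i ∈ Finset.range (2 * k), ∀ j ∈ Finset.range (2 * k), i ≠ j →
      Disjoint (((Finset.range n).filter (· ∈ B)).image (fun u => u + s i))
        (((Finset.range n).filter (· ∈ B)).image (fun u => u + s j)) := by
    have aux : ∀ i j, i < j → ∀ u ∈ B, ∀ v ∈ B, u + s j = v + s i → False := by
      intro i j hij u hu v hv he
      have := hs hij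
      exact hcon i j hij u hu v hv (by omega)
    intro i _ j _ hij
    rw [Finset.disjoint_left]
    intro x hx hy
    simp only [Finset.mem_image, Finset.mem_filter] at hx hy
    obtain ⟨u, ⟨-, hu⟩, hux⟩ := hx
    obtain ⟨v, ⟨-, hv⟩, hvx⟩ := hy
    rcases lt_or_gt_of_ne hij with h | h
    · exact aux i j h v hv u hu (by omega)
    · exact aux j i h u hu v hv (by omega)
  have hcard : ((Finset.range (2 * k)).biUnion
      (fun i => ((Finset.range n).filter (· ∈ B)).image (fun u => u + s i))).card =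
      2 * k * cnt B n := by
    rw [Finset.card_biUnion hdisj]
    rw [Finset.sum_congr rfl (g := fun _ => cnt B n)]
    · simp
    · intro i _
      rw [Finset.card_image_of_injective _ (add_left_injective (s i))]
      rfl
  have hsub : ((Finset.range (2 * k)).biUnion
      (fun i => ((Finset.range n).filter (· ∈ B)).image (fun u => u + s i))) ⊆
      Finset.range (n + s (2 * k)) := by
    intro x hx
    simp only [Finset.mem_biUnion, Finset.mem_image, Finset.mem_filter, Finset.mem_range] at hx ⊢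
    obtain ⟨i, hi, u, ⟨hu, -⟩, rfl⟩ := hx
    have := hs hi
    omega
  have hle := Finset.card_le_card hsub
  rw [hcard, Finset.card_range] at hle
  have : 2 * k * cnt B n = 2 * (k * cnt B n) := by ring
  omega

/-- The ultrafilters all of whose members have positive upper density. -/
def DD : Set (Ultrafilter ℕ) := {q | ∀ A ∈ q, PosDens A}

lemma DD_closed : IsClosed DD := by
  have : DD = ⋂ (A : Set ℕ) (_ : ¬ PosDens A), {q : Ultrafilter ℕ | Aᶜ ∈ q} := by
    ext q
    simp only [DD, Set.mem_ofPred_eq, Set.mem_iInter]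
    constructor
    · intro h A hA
      rw [Ultrafilter.compl_mem_iff_notMem]
      exact fun h' => hA (h A h')
    · intro h A hA
      by_contra hcon
      have := h A hcon
      rw [Ultrafilter.compl_mem_iff_notMem] at this
      exact this hA
  rw [this]
  exact isClosed_iInter fun A => isClosed_iInter fun _ => ultrafilter_isClosed_basic _

lemma DD_nonempty : DD.Nonempty := by
  let F : Filter ℕ :=
    { sets := {A | ¬ PosDens Aᶜ}
      univ_sets := by
        change ¬ PosDens (Set.univ : Set ℕ)ᶜ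
        rw [Set.compl_univ]; exact not_posDens_empty
      sets_of_superset := by
        intro x y hx hxy hy
        exact hx (hy.mono (Set.compl_subset_compl.mpr hxy))
      inter_sets := by
        intro x y hx hy h
        rw [Set.compl_inter] at h
        rcases h.union with h | h
        · exact hx h
        · exact hy h }
  have hF : F.NeBot := by
    rw [Filter.neBot_iff]
    intro h
    have : (∅ : Set ℕ) ∈ F := by rw [h]; exact Filter.mem_bot
    have h2 : ¬ PosDens (∅ : Set ℕ)ᶜ := this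
    rw [Set.compl_empty] at h2
    exact h2 posDens_univ
  refine ⟨Ultrafilter.of F, fun A hA => ?_⟩
  by_contra hcon
  have h1 : Aᶜ ∈ F := by
    change ¬ PosDens (Aᶜ)ᶜ
    rwa [compl_compl]
  have h2 : Aᶜ ∈ (Ultrafilter.of F : Filter ℕ) := Ultrafilter.of_le F h1
  have h3 := Ultrafilter.compl_mem_iff_notMem.mp h2
  exact h3 hA

/-- Additive idempotents in `DD`. -/
def EE : Set (Ultrafilter ℕ) := {q | q ∈ DD ∧ q + q = q}

lemma EE_nonempty : EE.Nonempty := by
  obtain ⟨q, hq, hqq⟩ := exists_idempotent_in_compact_add_subsemigroup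
    (M := Ultrafilter ℕ) Ultrafilter.continuous_add_left DD DD_nonempty DD_closed.isCompact
    (by
      intro r _ q hq A hA
      have hA' : ∀ᶠ m in (r : Filter ℕ), ∀ᶠ m' in (q : Filter ℕ), m + m' ∈ A := hA
      obtain ⟨m, hm⟩ := hA'.exists
      exact posDens_shift m (hq _ hm))
  exact ⟨q, hq, hqq⟩

lemma EE_dilate {m : ℕ} (hm : 0 < m) {q : Ultrafilter ℕ} (hq : q ∈ EE) :
    q.map (fun x => m * x) ∈ EE := by
  refine ⟨?_, ?_⟩
  · intro A hA
    exact posDens_dilate hm (hq.1 _ hA)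
  · apply Ultrafilter.coe_inj.mp
    apply Filter.ext
    intro A
    have h1 : A ∈ ((q.map (fun x => m * x) + q.map (fun x => m * x) : Ultrafilter ℕ) : Filter ℕ) ↔
        ∀ᶠ a in (q : Filter ℕ), ∀ᶠ b in (q : Filter ℕ), m * a + m * b ∈ A := Iff.rfl
    have h2 : A ∈ ((q.map (fun x => m * x) : Ultrafilter ℕ) : Filter ℕ) ↔
        ∀ᶠ a in ((q + q : Ultrafilter ℕ) : Filter ℕ), m * a ∈ A := by
      rw [hq.2]; exact Iff.rfl
    rw [h1, h2, Ultrafilter.eventually_add]
    simp only [mul_add]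

/-- The closure of the additive idempotents of positive density. -/
def GG : Set (Ultrafilter ℕ) := {p | ∀ A ∈ p, ∃ q ∈ EE, A ∈ q}

lemma GG_closed : IsClosed GG := by
  have : GG = ⋂ (A : Set ℕ) (_ : ∀ q ∈ EE, A ∉ q), {q : Ultrafilter ℕ | Aᶜ ∈ q} := by
    ext p
    simp only [GG, Set.mem_ofPred_eq, Set.mem_iInter]
    constructor
    · intro h A hA
      rw [Ultrafilter.compl_mem_iff_notMem]
      intro h'
      obtain ⟨q, hq, hAq⟩ := h A h'
      exact hA q hq hAq
    · intro h A hA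
      by_contra hcon
      push Not at hcon
      have := h A hcon
      rw [Ultrafilter.compl_mem_iff_notMem] at this
      exact this hA
  rw [this]
  exact isClosed_iInter fun A => isClosed_iInter fun _ => ultrafilter_isClosed_basic _

lemma GG_pos {p : Ultrafilter ℕ} (hp : p ∈ GG) {A : Set ℕ} (hA : A ∈ p) : PosDens A := by
  obtain ⟨q, hq, hAq⟩ := hp A hA
  exact hq.1 A hAq

lemma GG_ne_zero {p : Ultrafilter ℕ} (hp : p ∈ GG) : {x : ℕ | 0 < x} ∈ p := by
  have h : ({0} : Set ℕ)ᶜ ∈ p := by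
    rw [Ultrafilter.compl_mem_iff_notMem]
    exact fun h => not_posDens_zero (GG_pos hp h)
  filter_upwards [h] with x hx
  exact Nat.pos_of_ne_zero hx

lemma GG_mul {r p : Ultrafilter ℕ} (hr : r ∈ GG) (hp : p ∈ GG) : r * p ∈ GG := by
  intro A hA
  have hA' : ∀ᶠ m in (r : Filter ℕ), ∀ᶠ m' in (p : Filter ℕ), m * m' ∈ A := hA
  have h0 : ∀ᶠ m in (r : Filter ℕ), 0 < m := GG_ne_zero hr
  obtain ⟨m, hm, hm0⟩ := (hA'.and h0).exists
  obtain ⟨q, hq, hAq⟩ := hp _ hm
  exact ⟨q.map (fun x => m * x), EE_dilate hm0 hq, hAq⟩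

/-- There is a multiplicative idempotent in the closure of the additive idempotents of positive
density. -/
theorem exists_good : ∃ p : Ultrafilter ℕ, p ∈ GG ∧ p * p = p := by
  obtain ⟨q, hq⟩ := EE_nonempty
  obtain ⟨p, hp, hpp⟩ := exists_idempotent_in_compact_subsemigroup
    (M := Ultrafilter ℕ) Ultrafilter.continuous_mul_left GG ⟨q, fun A hA => ⟨q, hq, hA⟩⟩
    GG_closed.isCompact (fun r hr p hp => GG_mul hr hp)
  exact ⟨p, hp, hpp⟩

/-- Every member of a good ultrafilter contains all differences of some increasing sequence. -/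
lemma exists_delta {p : Ultrafilter ℕ} (hp : p ∈ GG) {A : Set ℕ} (hA : A ∈ p) :
    ∃ s : ℕ → ℕ, StrictMono s ∧ ∀ i j, i < j → s j - s i ∈ A := by
  have hA0 : A ∩ {x | 0 < x} ∈ p := inter_mem hA (GG_ne_zero hp)
  obtain ⟨q, hq, hAq⟩ := hp _ hA0
  obtain ⟨a, ha⟩ := Hindman.exists_FS_of_large q hq.2 _ hAq
  have hpos : ∀ i, 0 < a.get i := fun i => (ha (Hindman.FS.singleton a i)).2
  refine ⟨fun n => ∑ i ∈ Finset.range n, a.get i, ?_, ?_⟩
  · apply strictMono_nat_of_lt_succ
    intro n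
    rw [Finset.sum_range_succ]
    have := hpos n
    omega
  · intro i j hij
    have h1 : ∑ k ∈ Finset.range j, a.get k - ∑ k ∈ Finset.range i, a.get k =
        ∑ k ∈ Finset.Ico i j, a.get k := by
      have := Finset.sum_Ico_consecutive (fun k => a.get k) (Nat.zero_le i) hij.le
      simp only [Finset.range_eq_Ico]
      omega
    simp only
    rw [h1]
    exact (ha (Hindman.FS.finsetSum a _ (Finset.nonempty_Ico.mpr hij))).1

/-- In every finite colouring of the positive integers some colour class contains solutions of both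
`x - y = 2 w z` and `x + y = w z`. -/
theorem two_equations (r : ℕ) (χ : ℕ → Fin r) : ∃ col : Fin r,
    (∃ x y w z : ℕ, 0 < x ∧ 0 < y ∧ 0 < w ∧ 0 < z ∧ x = y + 2 * w * z ∧
      χ x = col ∧ χ y = col ∧ χ w = col ∧ χ z = col) ∧
    (∃ x y w z : ℕ, 0 < x ∧ 0 < y ∧ 0 < w ∧ 0 < z ∧ x + y = w * z ∧
      χ x = col ∧ χ y = col ∧ χ w = col ∧ χ z = col) := by
  obtain ⟨p, hp, hpp⟩ := exists_good
  -- the colour
  obtain ⟨col, hcol⟩ : ∃ col : Fin r, {x | χ x = col} ∈ p := by
    obtain ⟨col, hcol⟩ := Ultrafilter.eq_pure_of_finite (p.map χ)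
    refine ⟨col, ?_⟩
    have : ({col} : Set (Fin r)) ∈ p.map χ := by
      rw [hcol]; exact rfl
    exact this
  set A : Set ℕ := {x | χ x = col} ∩ {x | 0 < x} with hAdef
  have hA : A ∈ p := inter_mem hcol (GG_ne_zero hp)
  obtain ⟨s, hs, hsA⟩ := exists_delta hp hA
  refine ⟨col, ?_, ?_⟩
  · -- first equation
    obtain ⟨w, hw⟩ := Ultrafilter.nonempty_of_mem hA
    have hw0 : 0 < w := hw.2
    obtain ⟨i, j, hij, u, hu, v, hv, huv⟩ := return_lemma (GG_pos hp hA)
      (fun n => 2 * w * s n) (fun a b hab => Nat.mul_lt_mul_of_pos_left (hs hab) (by omega))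
    refine ⟨v, u, w, s j - s i, hv.2, hu.2, hw0, (hsA i j hij).2, ?_, hv.1, hu.1, hw.1,
      (hsA i j hij).1⟩
    rw [huv, Nat.mul_sub]
  · -- second equation
    have hA2 : ∀ᶠ m in (p : Filter ℕ), ∀ᶠ m' in (p : Filter ℕ), m * m' ∈ A := by
      have : A ∈ p * p := by rw [hpp]; exact hA
      exact this
    obtain ⟨w, hw, hwA⟩ := (hA2.and hA).exists
    have hw0 : 0 < w := hwA.2
    have hC : {z | w * z ∈ A ∧ z ∈ A} ∈ p := by
      filter_upwards [hw, hA] with z h1 h2
      exact ⟨h1, h2⟩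
    have hB : PosDens {u | ∃ z, (w * z ∈ A ∧ z ∈ A) ∧ u = w * z} := by
      apply posDens_dilate hw0
      apply (GG_pos hp hC).mono
      intro z hz
      exact ⟨z, hz, rfl⟩
    obtain ⟨i, j, hij, u, ⟨z1, hz1, hu⟩, v, ⟨z2, hz2, hv⟩, huv⟩ := return_lemma hB s hs
    refine ⟨u, s j - s i, w, z2, ?_, (hsA i j hij).2, hw0, hz2.2.2, by omega, ?_,
      (hsA i j hij).1, hwA.1, hz2.2.1⟩
    · rw [hu]; exact hz1.1.2
    · rw [hu]; exact hz1.1.1

end Pool.Agent.H304R3.Ultra
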